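import Mathlib

/-!
(S2) of helper37's stable direction: greedy selection among free copies.

* `step S k s x`: append `x` to the selected list `s` if `s` is shorter than `k` and `x` is new
  for `s` (`S s x`);
* `sel S k v`: the list selected from `v 0, v 1, ..., v (M-1)`;
* `sel_prob`: for `M` free copies of a law `nu`, the selection is incomplete with probability
  at most `2 ^ k * (1 - eps / 2) ^ M`;
* `sel_idx`: a complete selection gives (increasing) indices of new elements.
-/

open Finset BigOperators

namespace Pool.TT98

variable {Om : Type*}

open Classical in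
/-- one step of the greedy selection -/
noncomputable def step (S : List Om → Om → Prop) (k : ℕ) (s : List Om) (x : Om) : List Om :=
  if s.length < k ∧ S s x then s ++ [x] else s

/-- the list selected by the greedy rule -/
noncomputable def sel (S : List Om → Om → Prop) (k : ℕ) {M : ℕ} (v : Fin M → Om) : List Om :=
  (List.ofFn v).foldl (step S k) []

theorem step_len_ge (S : List Om → Om → Prop) (k : ℕ) (s : List Om) (x : Om) :
    s.length ≤ (step S k s x).length := by
  unfold step
  split_ifs <;> simp

theorem foldl_len_ge (S : List Om → Om → Prop) (k : ℕ) (l : List Om) :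
    ∀ s : List Om, s.length ≤ (l.foldl (step S k) s).length := by
  induction l with
  | nil => intro s; simp
  | cons x l ih =>
    intro s
    rw [List.foldl_cons]
    exact (step_len_ge S k s x).trans (ih _)

/-- the probability that the selection, started from `s`, is incomplete -/
theorem sel_prob_from [Fintype Om] (nu : Om → ℝ) (h0 : ∀ x, 0 ≤ nu x) (h1 : ∑ x, nu x = 1)
    (S : List Om → Om → Prop) (k : ℕ) {eps : ℝ} (he1 : eps ≤ 1)
    (hS : ∀ s : List Om, s.length < k → eps ≤ ∑ x, (open Classical in if S s x then nu x else 0))
    (M : ℕ) : ∀ s : List Om,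
    (∑ v : Fin M → Om, (if ((List.ofFn v).foldl (step S k) s).length < k
      then ∏ j, nu (v j) else 0)) ≤ 2 ^ (k - s.length) * (1 - eps / 2) ^ M := by
  classical
  have hq : 0 ≤ 1 - eps / 2 := by linarith
  induction M with
  | zero =>
    intro s
    have h2 : (1:ℝ) ≤ 2 ^ (k - s.length) := one_le_pow₀ (by norm_num)
    simp only [List.ofFn_zero, List.foldl_nil, univ_eq_empty, prod_empty, pow_zero, mul_one]
    rw [Finset.sum_const, Finset.card_univ]
    have hc : Fintype.card (Fin 0 → Om) = 1 := by simp
    rw [hc, one_smul]
    split_ifs
    · exact h2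
    · linarith
  | succ M ih =>
    intro s
    have key : (∑ v : Fin (M + 1) → Om, (if ((List.ofFn v).foldl (step S k) s).length < k
        then ∏ j, nu (v j) else 0))
        = ∑ x, nu x * ∑ v : Fin M → Om,
            (if ((List.ofFn v).foldl (step S k) (step S k s x)).length < k
              then ∏ j, nu (v j) else 0) := by
      rw [← (Fin.consEquiv (fun _ : Fin (M + 1) => Om)).sum_comp, Fintype.sum_prod_type]
      refine Finset.sum_congr rfl fun x _ => ?_
      rw [Finset.mul_sum]
      refine Finset.sum_congr rfl fun v _ => ?_
      have e1 : (Fin.consEquiv (fun _ : Fin (M + 1) => Om)) (x, v) = Fin.cons x v := rfl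
      rw [e1]
      rw [List.ofFn_succ]
      simp only [Fin.cons_zero, Fin.cons_succ, List.foldl_cons, Fin.prod_univ_succ]
      split_ifs <;> simp
    rw [key]
    by_cases hs : s.length < k
    · have hp := hS s hs
      set p : ℝ := ∑ x, (if S s x then nu x else 0) with hpdef
      have hle1 : ∀ x, nu x * ∑ v : Fin M → Om,
            (if ((List.ofFn v).foldl (step S k) (step S k s x)).length < k
              then ∏ j, nu (v j) else 0)
          ≤ (2 ^ (k - s.length) * (1 - eps / 2) ^ M) *
              (nu x - (if S s x then nu x else 0) / 2) := by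
        intro x
        have ih' := ih (step S k s x)
        by_cases hx : S s x
        · have e2 : step S k s x = s ++ [x] := by
            unfold step; rw [if_pos ⟨hs, hx⟩]
          rw [e2] at ih' ⊢
          rw [if_pos hx]
          have e3 : (2:ℝ) ^ (k - s.length) = 2 * 2 ^ (k - (s ++ [x]).length) := by
            rw [List.length_append, List.length_singleton, ← pow_succ']
            congr 1
            omega
          rw [e3]
          calc _ ≤ nu x * (2 ^ (k - (s ++ [x]).length) * (1 - eps / 2) ^ M) :=
                mul_le_mul_of_nonneg_left ih' (h0 x)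
            _ = _ := by ring
        · have e2 : step S k s x = s := by
            unfold step; rw [if_neg (fun h => hx h.2)]
          rw [e2] at ih' ⊢
          rw [if_neg hx]
          calc _ ≤ nu x * (2 ^ (k - s.length) * (1 - eps / 2) ^ M) :=
                mul_le_mul_of_nonneg_left ih' (h0 x)
            _ = _ := by ring
      calc _ ≤ ∑ x, (2 ^ (k - s.length) * (1 - eps / 2) ^ M) *
              (nu x - (if S s x then nu x else 0) / 2) := Finset.sum_le_sum fun x _ => hle1 x
        _ = (2 ^ (k - s.length) * (1 - eps / 2) ^ M) * (1 - p / 2) := by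
            rw [← Finset.mul_sum, Finset.sum_sub_distrib, h1, ← Finset.sum_div]
        _ ≤ (2 ^ (k - s.length) * (1 - eps / 2) ^ M) * (1 - eps / 2) := by
            apply mul_le_mul_of_nonneg_left (by linarith)
            positivity
        _ = _ := by ring
    · have hz : ∀ x, nu x * ∑ v : Fin M → Om,
            (if ((List.ofFn v).foldl (step S k) (step S k s x)).length < k
              then ∏ j, nu (v j) else 0) = 0 := by
        intro x
        have : ∀ v : Fin M → Om,
            (if ((List.ofFn v).foldl (step S k) (step S k s x)).length < k
              then ∏ j, nu (v j) else 0) = 0 := by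
          intro v
          rw [if_neg]
          have ha := foldl_len_ge S k (List.ofFn v) (step S k s x)
          have hb := step_len_ge S k s x
          omega
        simp [this]
      rw [Finset.sum_eq_zero fun x _ => hz x]
      positivity

/-- **(S2), probability**: `M` free copies of `nu` give an incomplete selection with probability
at most `2 ^ k * (1 - eps / 2) ^ M`. -/
theorem sel_prob [Fintype Om] (nu : Om → ℝ) (h0 : ∀ x, 0 ≤ nu x) (h1 : ∑ x, nu x = 1)
    (S : List Om → Om → Prop) (k : ℕ) {eps : ℝ} (he1 : eps ≤ 1)
    (hS : ∀ s : List Om, s.length < k → eps ≤ ∑ x, (open Classical in if S s x then nu x else 0))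
    (M : ℕ) :
    (∑ v : Fin M → Om, (if (sel S k v).length < k then ∏ j, nu (v j) else 0))
      ≤ 2 ^ k * (1 - eps / 2) ^ M := by
  have h := sel_prob_from nu h0 h1 S k he1 hS M []
  rw [List.length_nil, Nat.sub_zero] at h
  exact h

theorem step_len_le (S : List Om → Om → Prop) (k : ℕ) (s : List Om) (x : Om)
    (h : s.length ≤ k) : (step S k s x).length ≤ k := by
  unfold step
  split_ifs with h'
  · simp only [List.length_append, List.length_singleton]
    omega
  · exact h

theorem foldl_len_le (S : List Om → Om → Prop) (k : ℕ) (l : List Om) :
    ∀ s : List Om, s.length ≤ k → (l.foldl (step S k) s).length ≤ k := by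
  induction l with
  | nil => intro s hs; simpa using hs
  | cons x l ih =>
    intro s hs
    rw [List.foldl_cons]
    exact ih _ (step_len_le S k s x hs)

/-- the selection has at most `k` members -/
theorem sel_len_le (S : List Om → Om → Prop) (k : ℕ) {M : ℕ} (v : Fin M → Om) :
    (sel S k v).length ≤ k :=
  foldl_len_le S k _ [] (by simp)

/-- `s` is read off `l` at increasing indices, each member being new for the previous ones -/
def Idx (S : List Om → Om → Prop) (l s : List Om) : Prop :=
  ∃ sg : ℕ → ℕ, (∀ i, i < s.length → sg i < l.length) ∧
      (∀ i j, i < j → j < s.length → sg i < sg j) ∧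
      (∀ i (h : i < s.length), l[sg i]? = some (s[i]) ∧ S (s.take i) (s[i]))

theorem Idx.skip {S : List Om → Om → Prop} {l s : List Om} (h : Idx S l s) (x : Om) :
    Idx S (l ++ [x]) s := by
  obtain ⟨sg, h1, h2, h3⟩ := h
  refine ⟨sg, ?_, h2, ?_⟩
  · intro i hi
    have := h1 i hi
    simp only [List.length_append, List.length_singleton]
    omega
  · intro i hi
    obtain ⟨ha, hb⟩ := h3 i hi
    rw [List.getElem?_append_left (h1 i hi)]
    exact ⟨ha, hb⟩

theorem Idx.take {S : List Om → Om → Prop} {l s : List Om} (h : Idx S l s) {x : Om}
    (hx : S s x) : Idx S (l ++ [x]) (s ++ [x]) := by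
  obtain ⟨sg, h1, h2, h3⟩ := h
  refine ⟨fun i => if i < s.length then sg i else l.length, ?_, ?_, ?_⟩
  · intro i _
    simp only [List.length_append, List.length_singleton]
    split_ifs with h
    · have := h1 i h
      omega
    · omega
  · intro i j hij hj
    simp only [List.length_append, List.length_singleton] at hj
    have hi : i < s.length := by omega
    simp only [hi, if_true]
    split_ifs with h
    · exact h2 i j hij h
    · exact h1 i hi
  · intro i hi
    simp only [List.length_append, List.length_singleton] at hi
    by_cases h : i < s.length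
    · simp only [h, if_true]
      obtain ⟨ha, hb⟩ := h3 i h
      rw [List.getElem_append_left h, List.take_append_of_le_length h.le,
        List.getElem?_append_left (h1 i h)]
      exact ⟨ha, hb⟩
    · have hi' : i = s.length := by omega
      subst hi'
      simp only [lt_irrefl, if_false]
      refine ⟨by simp, ?_⟩
      simpa using hx

/-- the selected list, by indices -/
theorem foldl_idx (S : List Om → Om → Prop) (k : ℕ) (l : List Om) :
    Idx S l (l.foldl (step S k) []) := by
  induction l using List.reverseRecOn with
  | nil => exact ⟨fun _ => 0, by simp, by simp, by simp⟩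
  | append_singleton l x ih =>
    rw [List.foldl_append, List.foldl_cons, List.foldl_nil]
    unfold step at ih ⊢
    split_ifs with hn
    · exact ih.take hn.2
    · exact ih.skip x

/-- **(S2), indices**: a complete selection gives indices `sg 0 < sg 1 < ... < sg (k-1)` such
that `v (sg l)` is new for `[v (sg 0), ..., v (sg (l-1))]`. -/
theorem sel_idx (S : List Om → Om → Prop) (k : ℕ) {M : ℕ} (hM : 0 < M) (v : Fin M → Om)
    (h : (sel S k v).length = k) :
    ∃ sg : ℕ → Fin M, (∀ l, l < k → S ((List.range l).map (fun i => v (sg i))) (v (sg l))) ∧
      (∀ i j, i < j → j < k → sg i < sg j) ∧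
      sel S k v = (List.range k).map (fun i => v (sg i)) := by
  obtain ⟨sg, h1, h2, h3⟩ := foldl_idx S k (List.ofFn v)
  have hsel : sel S k v = (List.ofFn v).foldl (step S k) [] := rfl
  rw [← hsel] at h1 h2 h3
  rw [h] at h1 h2
  simp only [List.length_ofFn] at h1
  have hv : ∀ i, (hi : i < k) → (sel S k v)[i]'(by rw [h]; exact hi) = v ⟨sg i, h1 i hi⟩ := by
    intro i hi
    have := (h3 i (by rw [h]; exact hi)).1
    rw [List.getElem?_ofFn] at this
    simp only [h1 i hi, dite_true, Option.some.injEq] at this
    exact this.symm
  let sg' : ℕ → Fin M := fun i => if hi : sg i < M then ⟨sg i, hi⟩ else ⟨0, hM⟩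
  have hsg' : ∀ i, (hi : i < k) → sg' i = ⟨sg i, h1 i hi⟩ := by
    intro i hi
    simp only [sg', h1 i hi, dite_true]
  have htake : ∀ l, l ≤ k → (List.range l).map (fun i => v (sg' i)) = (sel S k v).take l := by
    intro l hl
    apply List.ext_getElem
    · simp [h, hl]
    · intro i hi1 hi2
      simp only [List.length_map, List.length_range] at hi1
      rw [List.getElem_map, List.getElem_range, List.getElem_take, hv i (by omega),
        hsg' i (by omega)]
  refine ⟨sg', ?_, ?_, ?_⟩
  · intro l hl
    rw [htake l hl.le, hsg' l hl, ← hv l hl]
    exact (h3 l (by rw [h]; exact hl)).2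
  · intro i j hij hj
    rw [hsg' i (by omega), hsg' j hj]
    exact h2 i j hij hj
  · rw [htake k le_rfl, List.take_of_length_le (by omega)]

end Pool.TT98
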