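import Pool.Agent.H37.TT.Cop
import Pool.Agent.H19.BFL.Stmts

/-!
(S3) of helper37's stable direction: transfer of small probabilities between two laws of copies.

* `kl_event`: if the law of `Y` under `q` has relative entropy at most `I` with respect to the law
  of `Y₀` under `q₀`, and `A` has probability at most `b` under `q₀`, then it has probability at most
  `(I + log 2) / log (1 / b)` under `q`.
* `tv_tup`: the velocities of copies given the record `R` compared with the velocities of copies
  given a function `W'` of the record.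
-/

set_option autoImplicit false

namespace Pool.TT98

open Finset Real
open Pool.Agent.H49.Ent Pool.Agent.H32.Dense Pool.STK
open Pool.SLO (tup tup_nonneg tup_pos_iff tup_CH tup_CH_le tup_isLaw tup_marg tup_law)
open Pool.BFL (Pb)
open Pool.POT (MI)

section event

variable {Ω₁ Ω₀ S : Type} [Fintype Ω₁] [Fintype Ω₀] {q : Ω₁ → ℝ} {q₀ : Ω₀ → ℝ}

open Classical in
/-- the sum of the densities over an event -/
theorem dens_le (h0 : ∀ v, 0 ≤ q₀ v) (Y : Ω₁ → S) (Y₀ : Ω₀ → S)
    (B : S → Prop) :
    ∑ v, q v * (if B (Y v) then law q₀ Y₀ (Y v) / law q Y (Y v) else 0) ≤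
      Pb q₀ (fun w => B (Y₀ w)) := by
  rw [sum_mul_eq_sum_image q Y (fun s => if B s then law q₀ Y₀ s / law q Y s else 0)]
  have h1 : Pb q₀ (fun w => B (Y₀ w)) =
      ∑ w, q₀ w * (if B (Y₀ w) then (1 : ℝ) else 0) := by
    unfold Pb
    exact Finset.sum_congr rfl fun w _ => by split_ifs <;> simp
  rw [h1, sum_mul_eq_sum_image q₀ Y₀ (fun s => if B s then (1 : ℝ) else 0)]
  calc ∑ s ∈ univ.image Y, law q Y s * (if B s then law q₀ Y₀ s / law q Y s else 0)
      ≤ ∑ s ∈ univ.image Y, law q₀ Y₀ s * (if B s then (1 : ℝ) else 0) := by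
        refine Finset.sum_le_sum fun s _ => ?_
        split_ifs
        · rw [mul_one]
          by_cases hs : law q Y s = 0
          · rw [hs, zero_mul]
            exact law_nonneg h0 Y₀ s
          · rw [mul_div_cancel₀ _ hs]
        · simp
    _ ≤ ∑ s ∈ univ.image Y ∪ univ.image Y₀, law q₀ Y₀ s * (if B s then (1 : ℝ) else 0) := by
        refine Finset.sum_le_sum_of_subset_of_nonneg Finset.subset_union_left fun s _ _ => ?_
        refine mul_nonneg (law_nonneg h0 Y₀ s) ?_
        split_ifs <;> norm_num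
    _ = ∑ s ∈ univ.image Y₀, law q₀ Y₀ s * (if B s then (1 : ℝ) else 0) := by
        refine (Finset.sum_subset Finset.subset_union_right fun s _ hs => ?_).symm
        rw [law_eq_zero_of_notMem q₀ Y₀ hs, zero_mul]

open Classical in
/-- one half of the bound -/
theorem half_le (hq : ∀ v, 0 ≤ q v) (h0 : ∀ v, 0 ≤ q₀ v) (Y : Ω₁ → S) (Y₀ : Ω₀ → S)
    (hac : ∀ v, 0 < q v → 0 < law q₀ Y₀ (Y v)) (B : S → Prop) {c : ℝ} (hc : 0 < c) :
    ∑ v, (if B (Y v) then q v * (Real.log (law q₀ Y₀ (Y v)) - Real.log (law q Y (Y v))) else 0) ≤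
      Pb q₀ (fun w => B (Y₀ w)) / c + Pb q (fun v => B (Y v)) * (Real.log c - 1) := by
  have h1 : ∀ v, (if B (Y v) then q v * (Real.log (law q₀ Y₀ (Y v)) -
      Real.log (law q Y (Y v))) else 0) ≤
      (q v * (if B (Y v) then law q₀ Y₀ (Y v) / law q Y (Y v) else 0)) / c +
        (if B (Y v) then q v else 0) * (Real.log c - 1) := by
    intro v
    split_ifs
    · rcases (hq v).eq_or_lt with hv | hv
      · rw [← hv]; simp
      · have ha := hac v hv
        have hb := law_pos hq Y hv
        have ht : 0 < law q₀ Y₀ (Y v) / law q Y (Y v) / c := by positivity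
        have h2 := Real.log_le_sub_one_of_pos ht
        rw [Real.log_div (by positivity) hc.ne', Real.log_div ha.ne' hb.ne'] at h2
        have h3 : q v * (Real.log (law q₀ Y₀ (Y v)) - Real.log (law q Y (Y v))) ≤
            q v * (law q₀ Y₀ (Y v) / law q Y (Y v) / c + (Real.log c - 1)) :=
          mul_le_mul_of_nonneg_left (by linarith) hv.le
        calc _ ≤ _ := h3
          _ = _ := by ring
    · simp
  calc _ ≤ ∑ v, ((q v * (if B (Y v) then law q₀ Y₀ (Y v) / law q Y (Y v) else 0)) / c +
        (if B (Y v) then q v else 0) * (Real.log c - 1)) := Finset.sum_le_sum fun v _ => h1 v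
    _ = (∑ v, q v * (if B (Y v) then law q₀ Y₀ (Y v) / law q Y (Y v) else 0)) / c +
        Pb q (fun v => B (Y v)) * (Real.log c - 1) := by
        rw [Finset.sum_add_distrib, ← Finset.sum_div, ← Finset.sum_mul]
        rfl
    _ ≤ _ := by
        have := div_le_div_of_nonneg_right (dens_le (q := q) h0 Y Y₀ B) hc.le
        linarith

theorem Pb_add_not (Y : Ω₁ → Prop) : Pb q Y + Pb q (fun v => ¬ Y v) = ∑ v, q v := by
  classical
  unfold Pb
  rw [← Finset.sum_add_distrib]
  refine Finset.sum_congr rfl fun v _ => ?_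
  by_cases h : Y v <;> simp [h]

/-- **Small events stay small** under a law with small relative entropy. -/
theorem kl_event (hq : IsLaw q) (h0 : IsLaw q₀) (Y : Ω₁ → S) (Y₀ : Ω₀ → S)
    (hac : ∀ v, 0 < q v → 0 < law q₀ Y₀ (Y v)) {I : ℝ}
    (hI : -(∑ v, q v * Real.log (law q₀ Y₀ (Y v))) - H q Y ≤ I)
    (A : S → Prop) {b : ℝ} (hb : 0 < b) (hA : Pb q₀ (fun w => A (Y₀ w)) ≤ b) :
    Pb q (fun v => A (Y v)) * Real.log (1 / b) ≤ I + Real.log 2 := by
  classical
  have k1 := half_le hq.nonneg h0.nonneg Y Y₀ hac A (c := 2 * b) (by positivity)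
  obtain ⟨B, hB⟩ : ∃ B : S → Prop, B = fun s => ¬ A s := ⟨_, rfl⟩
  have hBA : ∀ s, B s ↔ ¬ A s := fun s => by rw [hB]
  have k2 := half_le hq.nonneg h0.nonneg Y Y₀ hac B (c := 2) (by norm_num)
  have e1 : (∑ v, (if A (Y v) then q v * (Real.log (law q₀ Y₀ (Y v)) -
      Real.log (law q Y (Y v))) else 0)) +
      (∑ v, (if B (Y v) then q v * (Real.log (law q₀ Y₀ (Y v)) -
      Real.log (law q Y (Y v))) else 0)) =
      ∑ v, q v * Real.log (law q₀ Y₀ (Y v)) + H q Y := by
    unfold H
    rw [← sub_eq_add_neg, ← Finset.sum_sub_distrib, ← Finset.sum_add_distrib]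
    refine Finset.sum_congr rfl fun v _ => ?_
    by_cases h : A (Y v)
    · rw [if_pos h, if_neg (fun h' => (hBA _).1 h' h)]
      ring
    · rw [if_neg h, if_pos ((hBA _).2 h)]
      ring
  have e2 := Pb_add_not (q := q) (fun v => A (Y v))
  rw [hq.sum_one] at e2
  have e3 := Pb_add_not (q := q₀) (fun w => A (Y₀ w))
  rw [h0.sum_one] at e3
  have f2 : (fun v => ¬ A (Y v)) = fun v => B (Y v) := by rw [hB]
  have f3 : (fun w => ¬ A (Y₀ w)) = fun w => B (Y₀ w) := by rw [hB]
  rw [f2] at e2
  rw [f3] at e3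
  have p1 : 0 ≤ Pb q₀ (fun w => A (Y₀ w)) := by
    unfold Pb
    exact Finset.sum_nonneg fun w _ => by split_ifs; exacts [h0.nonneg w, le_rfl]
  have m1 : Pb q₀ (fun w => A (Y₀ w)) / (2 * b) ≤ 1 / 2 := by
    rw [div_le_div_iff₀ (by positivity) (by norm_num)]
    linarith
  have m2 : Pb q₀ (fun w => B (Y₀ w)) / 2 ≤ 1 / 2 := by linarith
  have l1 : Real.log (2 * b) = Real.log 2 + Real.log b := Real.log_mul (by norm_num) hb.ne'
  rw [l1] at k1
  rw [one_div, Real.log_inv]
  have ea : Pb q (fun v => B (Y v)) = 1 - Pb q (fun v => A (Y v)) := by linarith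
  rw [ea] at k2
  linarith

end event

variable {Ω δ ρ γ : Type} [Fintype Ω] {p : Ω → ℝ}

/-- The law of free copies. -/
theorem law_tup (hp : ∀ ω, 0 ≤ p ω) (W : Ω → γ) (d : Ω → δ) (N : ℕ) (x : Fin (N + 1) → δ)
    (z : γ) :
    law (tup p W N) (fun v => ((fun j => d (v j)), W (v 0))) (x, z) =
      law p W z * ∏ j, law (cond p W z) d (x j) := by
  classical
  by_cases hz : law p W z = 0
  · rw [hz, zero_mul]
    unfold law
    refine Finset.sum_eq_zero fun v _ => ?_
    split_ifs with h
    · have h1 : W (v 0) = z := (Prod.ext_iff.1 h).2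
      have h2 := le_law hp W (v 0)
      rw [h1, hz] at h2
      have h3 : p (v 0) = 0 := le_antisymm h2 (hp _)
      unfold tup
      rw [h3, zero_mul]
    · rfl
  have c1 : ∀ v : Fin (N + 1) → Ω,
      (if ((fun j => d (v j)), W (v 0)) = (x, z) then tup p W N v else 0) =
        law p W z * ∏ j, (if d (v j) = x j then cond p W z (v j) else 0) := by
    intro v
    by_cases h : ((fun j => d (v j)), W (v 0)) = (x, z)
    · rw [if_pos h]
      have h1 : W (v 0) = z := (Prod.ext_iff.1 h).2
      have h2 : ∀ j, d (v j) = x j := fun j => congrFun (Prod.ext_iff.1 h).1 j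
      have h3 : ∀ j ∈ (Finset.univ : Finset (Fin (N + 1))),
          (if d (v j) = x j then cond p W z (v j) else 0) = cond p W z (v j) :=
        fun j _ => if_pos (h2 j)
      rw [Finset.prod_congr rfl h3, Fin.prod_univ_succ, ← mul_assoc]
      unfold tup
      rw [h1]
      congr 1
      unfold Pool.Agent.H49.Ent.cond
      rw [if_pos h1, mul_div_cancel₀ _ hz]
    · rw [if_neg h]
      symm
      rw [mul_eq_zero]
      right
      by_cases h2 : ∀ j, d (v j) = x j
      · have h1 : W (v 0) ≠ z := fun h1 => h (Prod.ext (funext h2) h1)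
        refine Finset.prod_eq_zero (Finset.mem_univ 0) ?_
        rw [if_pos (h2 0)]
        unfold Pool.Agent.H49.Ent.cond
        rw [if_neg h1]
      · push Not at h2
        obtain ⟨j, hj⟩ := h2
        exact Finset.prod_eq_zero (Finset.mem_univ j) (if_neg hj)
  have c2 : law (tup p W N) (fun v => ((fun j => d (v j)), W (v 0))) (x, z) =
      ∑ v : Fin (N + 1) → Ω,
        (if ((fun j => d (v j)), W (v 0)) = (x, z) then tup p W N v else 0) := by
    unfold law
    exact Finset.sum_congr rfl fun v _ => by congr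
  rw [c2, Finset.sum_congr rfl fun v _ => c1 v, ← Finset.mul_sum]
  congr 1
  have c3 : ∀ j ∈ (Finset.univ : Finset (Fin (N + 1))), law (cond p W z) d (x j) =
      ∑ ω ∈ (Finset.univ : Finset Ω), (if d ω = x j then cond p W z ω else 0) := fun j _ => by
    unfold law
    exact Finset.sum_congr rfl fun ω _ => by congr
  rw [Finset.prod_congr rfl c3, Finset.prod_univ_sum, Fintype.piFinset_univ]

/-- **Transfer of small probabilities**: the copies given the record `R` compared with the copies
given a function `W'` of the record. -/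
theorem tv_tup (hp : IsLaw p) (R : Ω → ρ) (W' : Ω → γ) (hdet : Det p R W') (d : Ω → δ) (N : ℕ)
    (A : (Fin (N + 1) → δ) → γ → Prop) {b : ℝ} (hb : 0 < b)
    (hA : Pb (tup p W' N) (fun v => A (fun j => d (v j)) (W' (v 0))) ≤ b) :
    Pb (tup p R N) (fun v => A (fun j => d (v j)) (W' (v 0))) * Real.log (1 / b) ≤
      (N + 1) * (CH p d W' - CH p d R) + Real.log 2 := by
  have h0 := hp.nonneg
  have q0 : ∀ v, 0 ≤ tup p R N v := fun v => tup_nonneg h0 _ N v
  have hm : ∀ v, 0 < tup p R N v → ∀ j, W' (v j) = W' (v 0) := fun v hv j => by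
    have h1 := (tup_pos_iff h0 _ N v).1 hv
    exact hdet _ _ (h1.1 j) (h1.1 0) (h1.2 j)
  have hpos : ∀ v, 0 < tup p R N v → ∀ j, 0 < p (v j) := fun v hv j =>
    ((tup_pos_iff h0 _ N v).1 hv).1 j
  -- the law of the free copies at the samples
  have e1 : ∀ v, 0 < tup p R N v →
      0 < law (tup p W' N) (fun v => ((fun j => d (v j)), W' (v 0)))
        ((fun j => d (v j)), W' (v 0)) ∧
      Real.log (law (tup p W' N) (fun v => ((fun j => d (v j)), W' (v 0)))
        ((fun j => d (v j)), W' (v 0))) =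
        Real.log (law p W' (W' (v 0))) +
        ∑ j, (Real.log (law p (fun ω => (d ω, W' ω)) (d (v j), W' (v j))) -
          Real.log (law p W' (W' (v j)))) := by
    intro v hv
    have hw : ∀ j, 0 < law p W' (W' (v j)) := fun j => law_pos h0 W' (hpos v hv j)
    have hdw : ∀ j, 0 < law p (fun ω => (d ω, W' ω)) (d (v j), W' (v j)) := fun j =>
      law_pos h0 (fun ω => (d ω, W' ω)) (hpos v hv j)
    have h1 := law_tup h0 W' d N (fun j => d (v j)) (W' (v 0))
    have h2 : ∀ j ∈ (Finset.univ : Finset (Fin (N + 1))),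
        law (cond p W' (W' (v 0))) d (d (v j)) =
        law p (fun ω => (d ω, W' ω)) (d (v j), W' (v j)) / law p W' (W' (v j)) := fun j _ => by
      rw [law_cond, hm v hv j]
    rw [h1, Finset.prod_congr rfl h2]
    have h3 : ∀ j, 0 < law p (fun ω => (d ω, W' ω)) (d (v j), W' (v j)) /
        law p W' (W' (v j)) := fun j => div_pos (hdw j) (hw j)
    refine ⟨mul_pos (hw 0) (Finset.prod_pos fun j _ => h3 j), ?_⟩
    rw [Real.log_mul (hw 0).ne' (Finset.prod_pos fun j _ => h3 j).ne',
      Real.log_prod fun j _ => (h3 j).ne']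
    congr 1
    exact Finset.sum_congr rfl fun j _ => Real.log_div (hdw j).ne' (hw j).ne'
  -- the cross entropy
  have e2 : -(∑ v, tup p R N v * Real.log (law (tup p W' N)
      (fun v => ((fun j => d (v j)), W' (v 0))) ((fun j => d (v j)), W' (v 0)))) =
      H p W' + (N + 1) * CH p d W' := by
    have h1 : ∀ v, tup p R N v * Real.log (law (tup p W' N)
        (fun v => ((fun j => d (v j)), W' (v 0))) ((fun j => d (v j)), W' (v 0))) =
        tup p R N v * Real.log (law p W' (W' (v 0))) +
        ∑ j, tup p R N v * (Real.log (law p (fun ω => (d ω, W' ω)) (d (v j), W' (v j))) -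
          Real.log (law p W' (W' (v j)))) := by
      intro v
      rcases (q0 v).eq_or_lt with hv | hv
      · rw [← hv]; simp
      · rw [(e1 v hv).2, mul_add, Finset.mul_sum]
    rw [Finset.sum_congr rfl fun v _ => h1 v, Finset.sum_add_distrib, Finset.sum_comm]
    have h2 : ∀ j : Fin (N + 1), ∑ v, tup p R N v *
        (Real.log (law p (fun ω => (d ω, W' ω)) (d (v j), W' (v j))) -
          Real.log (law p W' (W' (v j)))) = -CH p d W' := by
      intro j
      have h3 := (tup_marg h0 R N j).ex (fun ω =>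
        Real.log (law p (fun ω => (d ω, W' ω)) (d ω, W' ω)) - Real.log (law p W' (W' ω)))
      unfold Ex at h3
      rw [h3]
      unfold CH H
      rw [Finset.sum_congr rfl fun ω _ => mul_sub (p ω) _ _, Finset.sum_sub_distrib]
      ring
    have h4 : ∑ v, tup p R N v * Real.log (law p W' (W' (v 0))) = -H p W' := by
      have h3 := (tup_marg h0 R N 0).ex (fun ω => Real.log (law p W' (W' ω)))
      unfold Ex at h3
      rw [h3]
      unfold H
      ring
    rw [h4, Finset.sum_congr rfl fun j _ => h2 j, Finset.sum_const, Finset.card_univ,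
      Fintype.card_fin, nsmul_eq_mul]
    push_cast
    ring
  -- the entropy of the velocities
  have e3 : (N + 1) * CH p d R + H p W' ≤
      H (tup p R N) (fun v => ((fun j => d (v j)), W' (v 0))) := by
    have h1 := tup_CH h0 R d N
    have h2 : CH (tup p R N) (fun v j => d (v j)) (fun v => R (v 0)) ≤
        CH (tup p R N) (fun v j => d (v j)) (fun v => W' (v 0)) := by
      refine CH_mono_cond q0 ?_
      intro v v' hv hv' h
      exact hdet _ _ (hpos v hv 0) (hpos v' hv' 0) h
    have h3 : H (tup p R N) (fun v => W' (v 0)) = H p W' := by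
      have h4 := (tup_marg h0 R N 0).ex (fun ω => Real.log (law p W' (W' ω)))
      have h5 : ∀ z, law (tup p R N) (fun v => W' (v 0)) z = law p W' z :=
        fun z => (tup_marg h0 R N 0).law W' z
      unfold Ex at h4
      unfold H
      rw [← h4]
      simp only [h5]
    have h6 : H (tup p R N) (fun v => ((fun j => d (v j)), W' (v 0))) =
        CH (tup p R N) (fun v j => d (v j)) (fun v => W' (v 0)) +
          H (tup p R N) (fun v => W' (v 0)) := by
      unfold CH
      ring
    rw [h6, h3]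
    linarith
  have key := kl_event (tup_isLaw hp R N) (tup_isLaw hp W' N)
    (fun v => ((fun j => d (v j)), W' (v 0))) (fun v => ((fun j => d (v j)), W' (v 0)))
    (fun v hv => (e1 v hv).1) (I := (N + 1) * (CH p d W' - CH p d R)) (by rw [e2]; linarith)
    (fun s => A s.1 s.2) hb hA
  exact key

/-- The same with a quotient. -/
theorem tv_tup_div (hp : IsLaw p) (R : Ω → ρ) (W' : Ω → γ) (hdet : Det p R W') (d : Ω → δ)
    (N : ℕ) (A : (Fin (N + 1) → δ) → γ → Prop) {b : ℝ} (hb : 0 < b) (hb1 : b < 1)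
    (hA : Pb (tup p W' N) (fun v => A (fun j => d (v j)) (W' (v 0))) ≤ b) :
    Pb (tup p R N) (fun v => A (fun j => d (v j)) (W' (v 0))) ≤
      ((N + 1) * (CH p d W' - CH p d R) + Real.log 2) / Real.log (1 / b) := by
  have h1 : 0 < Real.log (1 / b) := Real.log_pos (by rw [one_lt_div hb]; exact hb1)
  rw [le_div_iff₀ h1]
  exact tv_tup hp R W' hdet d N A hb hA

/-- **The coupled copies `tup p (Pool.TT37.Ln b t W) N`** compared with the copies given a function `W'` of
the context. -/
theorem tv_cop {β τ γ' : Type} (hp : IsLaw p) (b : Ω → β) (t : Ω → τ) (W : Ω → γ)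
    (W' : Ω → γ') (hdet : Det p W W') (d : Ω → δ) (N : ℕ) (A : (Fin (N + 1) → δ) → γ' → Prop)
    {x : ℝ} (hx : 0 < x) (hx1 : x < 1)
    (hA : Pb (tup p W' N) (fun v => A (fun j => d (v j)) (W' (v 0))) ≤ x) :
    Pb (tup p (Pool.TT37.Ln b t W) N) (fun v => A (fun j => d (v j)) (W' (v 0))) ≤
      ((N + 1) * ((CH p d W' - CH p d W) + MI p d t W + MI p d b (fun ω => (t ω, W ω))) +
        Real.log 2) / Real.log (1 / x) := by
  have h1 := tv_tup_div hp (Pool.TT37.Ln b t W) W' (fun ω ω' h h' e => hdet ω ω' h h' (by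
    simp only [Pool.TT37.Ln, Prod.mk.injEq] at e
    exact e.2.2)) d N A hx hx1 hA
  have x1 : MI p d t W = CH p d W - CH p d (fun ω => (t ω, W ω)) := rfl
  have x2 : MI p d b (fun ω => (t ω, W ω)) = CH p d (fun ω => (t ω, W ω)) -
      CH p d (fun ω => (b ω, (t ω, W ω))) := rfl
  have x3 : CH p d (Pool.TT37.Ln b t W) = CH p d (fun ω => (b ω, (t ω, W ω))) := rfl
  have e : (CH p d W' - CH p d W) + MI p d t W + MI p d b (fun ω => (t ω, W ω)) =
      CH p d W' - CH p d (Pool.TT37.Ln b t W) := by
    rw [x1, x2, x3]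
    ring
  rw [e]
  exact h1

end Pool.TT98
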